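import Pool.Agent.Lib.MP_5566a7_lc.Defs
import Pool.Agent.Lib.MP_5566a7_lc.Main

/-!
Negative answer to the question of MP_5566a7_lc at every level `n ≥ 2` of the Ershov hierarchy.
-/

namespace Pool.Agent.Results.MP_5566a7_lc.ErshovNegative

open Pool.Agent.MP5566

/-- For every `n ≥ 2` there is a family `A` of `n`-c.e. sets which has, up to equivalence,
exactly one `Σ⁻¹ₙ`-computable positive numbering `ν`, such that `ν` is not least and the Rogers
semilattice `R⁻¹ₙ(A)` has exactly two minimal elements. -/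
theorem result : ∀ n : ℕ, 2 ≤ n → ∃ A : Set (Set ℕ),
    (∀ X ∈ A, IsNCE n X) ∧
    (∃ ν : ErshovNumbering n A, IsPositive ν.toFun ∧
      (∀ β : ErshovNumbering n A, IsPositive β.toFun → β ≤ ν ∧ ν ≤ β) ∧
      ¬ ∀ β : ErshovNumbering n A, ν ≤ β) ∧
    {c : Rogers n A | IsMin c}.ncard = 2 :=
  fun n hn => Pool.Agent.MP5566.main n hn

end Pool.Agent.Results.MP_5566a7_lc.ErshovNegative
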